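import Pool.Agent.helper90.IV.Spec

/-!
# IV row CB2 (MP_26dbae_co): balanced distribution of the children over the hubs
-/

set_option autoImplicit false

open scoped BigOperators

namespace Pool.Agent.helper15.IV

open Pool.Agent.helper23.TH Pool.Agent.KS Pool.Agent.IV

noncomputable section

/-- `⌊μ j⌋` -/
def CB2_F (μ : ℚ) (j : ℕ) : ℕ := ⌊μ * j⌋₊

/-- number of children of the hub `j` -/
def CB2_p (μ : ℚ) (j : ℕ) : ℕ := if j = 0 then CB2_F μ 1 else CB2_F μ (j + 1) - CB2_F μ j - 1

theorem CB2_F_le (μ : ℚ) (hμ : 1 ≤ μ) (j : ℕ) : (CB2_F μ j : ℚ) ≤ μ * j :=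
  Nat.floor_le (mul_nonneg (by linarith) (Nat.cast_nonneg j))

theorem CB2_lt_F (μ : ℚ) (j : ℕ) : μ * j < (CB2_F μ j : ℚ) + 1 := Nat.lt_floor_add_one _

theorem CB2_step (μ : ℚ) (hμ : 1 ≤ μ) (j : ℕ) : CB2_F μ j + 1 ≤ CB2_F μ (j + 1) := by
  unfold CB2_F
  refine Nat.le_floor ?_
  have h := CB2_F_le μ hμ j
  unfold CB2_F at h
  push_cast
  nlinarith

theorem CB2_p_succ (μ : ℚ) (hμ : 1 ≤ μ) (j : ℕ) :
    (CB2_p μ (j + 1) : ℚ) = (CB2_F μ (j + 1 + 1) : ℚ) - CB2_F μ (j + 1) - 1 := by
  have h := CB2_step μ hμ (j + 1)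
  have h1 : CB2_p μ (j + 1) = CB2_F μ (j + 1 + 1) - CB2_F μ (j + 1) - 1 := by
    unfold CB2_p
    rw [if_neg (Nat.succ_ne_zero j)]
  have h2 : CB2_p μ (j + 1) + CB2_F μ (j + 1) + 1 = CB2_F μ (j + 1 + 1) := by omega
  have h3 : ((CB2_p μ (j + 1) + CB2_F μ (j + 1) + 1 : ℕ) : ℚ) = (CB2_F μ (j + 1 + 1) : ℕ) := by rw [h2]
  push_cast at h3
  linarith

theorem CB2_key (μ : ℚ) (hμ : 1 ≤ μ) : ∀ b : ℕ, ∀ A : Finset ℕ, (∀ j ∈ A, j < b) →
    ((∑ j ∈ A, (CB2_p μ j : ℚ)) + ((A.filter fun j => j + 1 ∈ A).card : ℚ) ≤ μ * A.card) ∧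
    (∀ c, b = c + 1 → c ∈ A →
      (∑ j ∈ A, (CB2_p μ j : ℚ)) + ((A.filter fun j => j + 1 ∈ A).card : ℚ) ≤
        μ * A.card + ((CB2_F μ b : ℚ) - μ * b)) := by
  intro b
  induction b with
  | zero =>
    intro A hA
    have hA0 : A = ∅ := Finset.eq_empty_of_forall_notMem fun j hj => absurd (hA j hj) (Nat.not_lt_zero j)
    subst hA0
    refine ⟨by simp, fun c hc => absurd hc (by omega)⟩
  | succ b ih =>
    intro A hA
    by_cases hb : b ∈ A
    · -- remove `b`
      have hAe : ∀ j ∈ A.erase b, j < b := by
        intro j hj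
        have h1 := Finset.mem_erase.1 hj
        have h2 := hA j h1.2
        omega
      obtain ⟨ih1, ih2⟩ := ih (A.erase b) hAe
      have hsum : (∑ j ∈ A, (CB2_p μ j : ℚ)) = (∑ j ∈ A.erase b, (CB2_p μ j : ℚ)) + CB2_p μ b := by
        rw [Finset.sum_erase_add _ _ hb]
      have hcard : (A.card : ℚ) = (A.erase b).card + 1 := by
        rw [← Finset.card_erase_add_one hb]; push_cast; ring
      have hmain : (∑ j ∈ A, (CB2_p μ j : ℚ)) + ((A.filter fun j => j + 1 ∈ A).card : ℚ) ≤
          μ * A.card + ((CB2_F μ (b + 1) : ℚ) - μ * ((b + 1 : ℕ) : ℚ)) := by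
        rcases Nat.eq_zero_or_pos b with h0 | hpos
        · subst h0
          have hA1 : A = {0} := by
            apply Finset.eq_singleton_iff_unique_mem.2
            exact ⟨hb, fun j hj => by have := hA j hj; omega⟩
          subst hA1
          have hf : (({0} : Finset ℕ).filter fun j => j + 1 ∈ ({0} : Finset ℕ)) = ∅ := by
            apply Finset.filter_eq_empty_iff.2
            intro j hj
            simp
          rw [hf]
          simp only [Finset.sum_singleton, Finset.card_empty, Nat.cast_zero, Finset.card_singleton]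
          have hp : CB2_p μ 0 = CB2_F μ 1 := by unfold CB2_p; rw [if_pos rfl]
          rw [hp]
          push_cast
          linarith
        · obtain ⟨c, rfl⟩ : ∃ c, b = c + 1 := ⟨b - 1, by omega⟩
          have hp := CB2_p_succ μ hμ c
          by_cases hc : c ∈ A
          · have hce : c ∈ A.erase (c + 1) := Finset.mem_erase.2 ⟨by omega, hc⟩
            have h2 := ih2 c rfl hce
            have hcons : (A.filter fun j => j + 1 ∈ A).card ≤
                ((A.erase (c + 1)).filter fun j => j + 1 ∈ A.erase (c + 1)).card + 1 := by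
              have hsub : (A.filter fun j => j + 1 ∈ A) ⊆
                  insert c ((A.erase (c + 1)).filter fun j => j + 1 ∈ A.erase (c + 1)) := by
                intro j hj
                have hj1 := Finset.mem_filter.1 hj
                by_cases hjc : j = c
                · rw [hjc]; exact Finset.mem_insert_self _ _
                · refine Finset.mem_insert_of_mem (Finset.mem_filter.2 ⟨Finset.mem_erase.2 ⟨?_, hj1.1⟩,
                    Finset.mem_erase.2 ⟨by omega, hj1.2⟩⟩)
                  intro hjb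
                  have := hA (j + 1) hj1.2
                  omega
              exact (Finset.card_le_card hsub).trans (Finset.card_insert_le _ _)
            have hconsq : ((A.filter fun j => j + 1 ∈ A).card : ℚ) ≤
                (((A.erase (c + 1)).filter fun j => j + 1 ∈ A.erase (c + 1)).card : ℚ) + 1 := by
              exact_mod_cast hcons
            rw [hsum, hcard, hp]
            push_cast at h2 ⊢
            linarith
          · have hcons : (A.filter fun j => j + 1 ∈ A).card ≤
                ((A.erase (c + 1)).filter fun j => j + 1 ∈ A.erase (c + 1)).card := by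
              apply Finset.card_le_card
              intro j hj
              have hj1 := Finset.mem_filter.1 hj
              refine Finset.mem_filter.2 ⟨Finset.mem_erase.2 ⟨?_, hj1.1⟩,
                Finset.mem_erase.2 ⟨?_, hj1.2⟩⟩
              · intro hjb
                have := hA (j + 1) hj1.2
                omega
              · intro hjb
                have hjc : j = c := by omega
                exact hc (hjc ▸ hj1.1)
            have hconsq : ((A.filter fun j => j + 1 ∈ A).card : ℚ) ≤
                (((A.erase (c + 1)).filter fun j => j + 1 ∈ A.erase (c + 1)).card : ℚ) := by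
              exact_mod_cast hcons
            have hlt := CB2_lt_F μ (c + 1)
            rw [hsum, hcard, hp]
            push_cast at ih1 hlt ⊢
            linarith
      refine ⟨?_, ?_⟩
      · have hle := CB2_F_le μ hμ (b + 1)
        linarith
      · intro c hc _
        exact hmain
    · have hAe : ∀ j ∈ A, j < b := by
        intro j hj
        have h2 := hA j hj
        rcases Nat.lt_or_ge j b with h | h
        · exact h
        · exact absurd (show b ∈ A by have : j = b := by omega
                                      rw [← this]; exact hj) hb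
      refine ⟨(ih A hAe).1, ?_⟩
      intro c hc hcA
      exact absurd (show b ∈ A by have : c = b := by omega
                                  rw [← this]; exact hcA) hb

theorem CB2_total (μ : ℚ) (hμ : 1 ≤ μ) : ∀ m : ℕ,
    (∑ j ∈ Finset.range (m + 1), (CB2_p μ j : ℚ)) + m = CB2_F μ (m + 1) := by
  intro m
  induction m with
  | zero => simp [CB2_p]
  | succ m ih =>
    rw [Finset.sum_range_succ, CB2_p_succ μ hμ m]
    push_cast
    linarith

/-- row CB2 -/
theorem CB2 : CB2_stmt := by
  intro μ hμ
  have hden : μ.den ≠ 0 := μ.den_nz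
  refine ⟨μ.den - 1, fun j => CB2_p μ j.val, ?_, ?_⟩
  · intro A
    have hk := (CB2_key μ hμ (μ.den - 1 + 1) (A.map Fin.valEmbedding) (by
      intro j hj
      obtain ⟨i, _, rfl⟩ := Finset.mem_map.1 hj
      exact i.isLt)).1
    rw [Finset.sum_map, Finset.card_map] at hk
    simp only [Fin.valEmbedding_apply] at hk
    refine le_trans ?_ hk
    have hc : (Finset.univ.filter fun j : Fin (μ.den - 1) => j.castSucc ∈ A ∧ j.succ ∈ A).card ≤
        ((A.map Fin.valEmbedding).filter fun j => j + 1 ∈ A.map Fin.valEmbedding).card := by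
      apply Finset.card_le_card_of_injOn (fun j : Fin (μ.den - 1) => j.val)
      · intro j hj
        have hj1 := (Finset.mem_filter.1 (Finset.mem_coe.1 hj)).2
        refine Finset.mem_coe.2 (Finset.mem_filter.2 ⟨Finset.mem_map.2 ⟨j.castSucc, hj1.1, rfl⟩,
          Finset.mem_map.2 ⟨j.succ, hj1.2, rfl⟩⟩)
      · intro a _ b _ hab
        exact Fin.ext hab
    have hcq : ((Finset.univ.filter fun j : Fin (μ.den - 1) => j.castSucc ∈ A ∧ j.succ ∈ A).card : ℚ) ≤
        (((A.map Fin.valEmbedding).filter fun j => j + 1 ∈ A.map Fin.valEmbedding).card : ℚ) := by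
      exact_mod_cast hc
    linarith
  · have ht := CB2_total μ hμ (μ.den - 1)
    have h1 : (∑ j : Fin (μ.den - 1 + 1), (CB2_p μ j.val : ℚ)) =
        ∑ j ∈ Finset.range (μ.den - 1 + 1), (CB2_p μ j : ℚ) :=
      Fin.sum_univ_eq_sum_range (fun j => (CB2_p μ j : ℚ)) (μ.den - 1 + 1)
    have h2 : μ.den - 1 + 1 = μ.den := by omega
    have h3 : ((μ.den - 1 : ℕ) : ℚ) + 1 = μ.den := by
      rw [← h2]; push_cast; simp
    have h4 : μ * μ.den = μ.num := Rat.mul_den_eq_num μ
    have hnum : 0 ≤ μ.num := Rat.num_nonneg.2 (by linarith)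
    have h5 : (CB2_F μ (μ.den - 1 + 1) : ℚ) = μ * μ.den := by
      rw [h2]
      unfold CB2_F
      rw [h4]
      obtain ⟨n, hn⟩ := Int.eq_ofNat_of_zero_le hnum
      rw [hn]
      simp
    rw [h1, ht, h5]
    rw [h3]

end

end Pool.Agent.helper15.IV
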